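import Pool.Agent.H37.CTP.Stmts
import Pool.Agent.H14.CND.TOT

/-!
# Row DF2 of board ctp (MP_b57703): derivatives in characteristic two
-/

set_option autoImplicit false

namespace Pool.CND

open Finset Polynomial

namespace DF2X

/-- order of a product -/
private lemma ord_prod {k L : Type} [Field k] [Field L] [Algebra k L] (P : Place k L)
    {ι : Type} (s : Finset ι) (f : ι → L) (h : ∀ i ∈ s, f i ≠ 0) :
    P.ord (∏ i ∈ s, f i) = ∑ i ∈ s, P.ord (f i) := by
  classical
  induction s using Finset.induction_on with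
  | empty => simp [P.ord_one]
  | insert a s ha ih =>
    rw [Finset.prod_insert ha, Finset.sum_insert ha, P.ord_mul _ _ (h a (mem_insert_self a s))
      (Finset.prod_ne_zero_iff.2 fun i hi => h i (mem_insert_of_mem hi)),
      ih fun i hi => h i (mem_insert_of_mem hi)]

section deriv

variable {k L : Type} [Field k] [Field L] [Algebra k L] {P : Place k L}
  {φ : L →ₐ[k] LaurentSeries k} {D : L → LaurentSeries k}

private lemma D_zero (hD : Dv 2 k L P φ D) : D 0 = 0 := by
  have := hD.const 0
  rwa [map_zero] at this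

private lemma D_sub (hD : Dv 2 k L P φ D) (x y : L) : D (x - y) = D x - D y := by
  have h := hD.add (x - y) y
  rw [sub_add_cancel] at h
  rw [h, add_sub_cancel_right]

private lemma D_even (hk : CharP k 2) (hD : Dv 2 k L P φ D) {c : L} (hc : c ≠ 0) (j : ℤ) (a : k) :
    D (algebraMap k L a * c ^ (j + j)) = 0 := by
  have h2 : (2 : LaurentSeries k) = 0 := by
    have h3 : (2 : LaurentSeries k) = algebraMap k (LaurentSeries k) (2 : k) := by
      rw [map_ofNat]
    have h4 : (2 : k) = 0 := by
      have := (CharP.cast_eq_zero_iff k 2 2).2 (dvd_refl 2)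
      exact_mod_cast this
    rw [h3, h4, map_zero]
  rw [hD.mul, hD.const, mul_zero, add_zero, zpow_add₀ hc, hD.mul]
  have h5 : φ (c ^ j) * D (c ^ j) + φ (c ^ j) * D (c ^ j) = 2 * (φ (c ^ j) * D (c ^ j)) := by ring
  rw [h5, h2, zero_mul, mul_zero]

end deriv

end DF2X

open DF2X in
/-- DF2 -/
theorem df2_thm (h1 : S_DF1) : S_DF2 := by
  intro k L G _ _ _ _ _ P φ D ρ H z hk hinj hram hD hzfix hDz
  classical
  have hFix : ∀ g ∈ H, Fixes P (ρ g) := fun g hg => (hram g hg).1
  set m : ℕ := Nat.card H with hmdef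
  have hm1 : 1 ≤ m := Nat.card_pos
  set s : Finset G := univ.filter (fun g => g ∈ H) with hs
  have hcs : #s = m := by
    rw [hmdef, Nat.card_eq_fintype_card, Fintype.card_subtype]
  have hms : ∀ g, g ∈ s ↔ g ∈ H := by
    intro g
    rw [hs, mem_filter]
    exact ⟨fun h => h.2, fun h => ⟨mem_univ _, h⟩⟩
  have hπ0 := P.pi_ne
  have hπo := P.ord_pi
  have hρπ0 : ∀ g : G, ρ g P.pi ≠ 0 := by
    intro g h
    exact hπ0 (by simpa using h)
  have hρπo : ∀ g ∈ H, P.ord (ρ g P.pi) = 1 := by
    intro g hg
    rw [hFix g hg _ hπ0, hπo]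
  -- a fixed element of order `m`
  set c : L := ∏ g ∈ s, ρ g P.pi with hc
  have hc0 : c ≠ 0 := Finset.prod_ne_zero_iff.2 fun g _ => hρπ0 g
  have hco : P.ord c = m := by
    rw [hc, ord_prod P s _ fun g _ => hρπ0 g,
      Finset.sum_congr rfl fun g hg => by rw [hρπo g ((hms g).1 hg)]]
    simp [hcs]
  have hcfix : ∀ h ∈ H, ρ h c = c := by
    intro h hh
    rw [hc, map_prod]
    refine Finset.prod_equiv (Equiv.mulLeft h) ?_ ?_
    · intro g
      rw [hms, hms, Equiv.coe_mulLeft]
      exact ⟨fun hg => H.mul_mem hh hg, fun hg => (H.mul_mem_cancel_left hh).1 hg⟩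
    · intro g _
      rw [Equiv.coe_mulLeft, map_mul, AlgEquiv.mul_apply]
  set S : ℤ := sm (fun g => P.b (ρ g)) {h | h ∈ H ∧ h ≠ 1} with hS
  have hdvd : ∀ x : L, x ≠ 0 → (∀ h ∈ H, ρ h x = x) → (m : ℤ) ∣ P.ord x := fun x hx0 hx =>
    tot_thm k L G P ρ H hinj hFix x hx0 hx
  have hmz : (1 : ℤ) ≤ m := by exact_mod_cast hm1
  -- induction
  have key : ∀ (N : ℕ) (x : L) (n : ℤ), (∀ h ∈ H, ρ h x = x) → D x = D z → x ≠ 0 →
      P.ord x = n * m → ((D z).order + 1 - S).natAbs + 1 ≤ n + N →
      ∃ l : ℤ, (D z).order = m - 1 + S + 2 * l * m := by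
    intro N
    induction N with
    | zero =>
      intro x n hx hDx hx0 hxn hle
      exfalso
      have h2 := (h1 2 k L G P φ D ρ H x n Nat.prime_two hk hinj hram hD hx0 hx hxn).1
      rcases h2 with h2 | h2
      · exact hDz (by rw [← hDx]; exact h2)
      · rw [hDx, hxn] at h2
        have h3 : (n : ℤ) * m ≤ (D z).order + 1 - S := by linarith
        have h4 : (D z).order + 1 - S ≤ (((D z).order + 1 - S).natAbs : ℤ) := Int.le_natAbs
        have h5 : (0 : ℤ) ≤ (((D z).order + 1 - S).natAbs : ℤ) := Int.natCast_nonneg _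
        have h6 : (((D z).order + 1 - S).natAbs : ℤ) + 1 ≤ n := by
          simpa using hle
        have h7 : n ≤ n * m := by nlinarith
        linarith
    | succ N ih =>
      intro x n hx hDx hx0 hxn hle
      have h2 := h1 2 k L G P φ D ρ H x n Nat.prime_two hk hinj hram hD hx0 hx hxn
      by_cases hodd : ((2 : ℕ) : ℤ) ∣ n
      · obtain ⟨j, hj⟩ := hodd
        have hj2 : n = j + j := by
          rw [hj]
          push_cast
          ring
        have hcn : c ^ n ≠ 0 := zpow_ne_zero n hc0
        have hq0 : x / c ^ n ≠ 0 := div_ne_zero hx0 hcn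
        have hqo : P.ord (x / c ^ n) = 0 := by
          rw [P.ord_div hx0 hcn, P.ord_zpow hc0, hco, hxn, sub_self]
        obtain ⟨a, ha⟩ := P.residue (x / c ^ n) hq0 hqo.ge
        have hxc : x - algebraMap k L a * c ^ n = c ^ n * (x / c ^ n - algebraMap k L a) := by
          field_simp
        have hD' : D (x - algebraMap k L a * c ^ n) = D z := by
          rw [D_sub hD, hDx, hj2, D_even hk hD hc0, sub_zero]
        have hx0' : x - algebraMap k L a * c ^ n ≠ 0 := by
          intro h
          rw [h, D_zero hD] at hD'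
          exact hDz hD'.symm
        have hx' : ∀ h ∈ H, ρ h (x - algebraMap k L a * c ^ n) = x - algebraMap k L a * c ^ n := by
          intro h hh
          rw [map_sub, map_mul, map_zpow₀, hx h hh, hcfix h hh, AlgEquiv.commutes]
        obtain ⟨n', hn'⟩ := hdvd _ hx0' hx'
        have h3 : x / c ^ n - algebraMap k L a ≠ 0 := by
          intro h
          rw [hxc, h, mul_zero] at hx0'
          exact hx0' rfl
        have h4 : 0 < P.ord (x / c ^ n - algebraMap k L a) := by
          rcases ha with h | h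
          · exact absurd (sub_eq_zero.2 h) h3
          · exact h
        have h5 : P.ord (x - algebraMap k L a * c ^ n) =
            n * m + P.ord (x / c ^ n - algebraMap k L a) := by
          rw [hxc, P.ord_mul _ _ hcn h3, P.ord_zpow hc0, hco]
        rw [hn'] at h5
        have h6 : n + 1 ≤ n' := by
          by_contra hlt
          push Not at hlt
          have h7 : n' ≤ n := by omega
          nlinarith
        refine ih _ n' hx' hD' hx0' (by rw [hn']; ring) ?_
        push_cast at hle ⊢
        linarith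
      · have h3 := (h2.2 hodd).2
        rw [hDx, hxn] at h3
        have h4 : ∃ l : ℤ, n = 2 * l + 1 := by
          have : Odd n := by
            rw [← Int.not_even_iff_odd, even_iff_two_dvd]
            exact_mod_cast hodd
          exact this
        obtain ⟨l, hl⟩ := h4
        refine ⟨l, ?_⟩
        rw [h3, hl]
        ring
  have hz0 : z ≠ 0 := by
    rintro rfl
    exact hDz (D_zero hD)
  obtain ⟨n, hn⟩ := hdvd z hz0 hzfix
  obtain ⟨l, hl⟩ := key (((D z).order + 1 - S).natAbs + 1 + n.natAbs) z n hzfix rfl hz0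
    (by rw [hn]; ring) (by
      have h3 : -(n.natAbs : ℤ) ≤ n := by
        have := neg_abs_le n
        rwa [← Int.natCast_natAbs] at this
      push_cast at h3 ⊢
      linarith)
  exact ⟨l, hl⟩

end Pool.CND
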